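import Pool.Agent.L7h57.RV.Stm2

/-! [DV3] of project RV (helper57); after helper6's file Dv.lean. -/

set_option autoImplicit false

namespace Pool.Agent.L7h89.RV

open MvPolynomial Pool.Helper89.Rev Pool.Agent.L7h57.RV

theorem nr3_of_sub {p : MvPolynomial (Fin 3) ℂ} {S : Finset (Fin 3 →₀ ℕ)} (h : p.support ⊆ S) :
    nr3 p = ∑ m ∈ S, ‖coeff m p‖ := by
  unfold nr3
  refine Finset.sum_subset h fun m _ hm => ?_
  rw [notMem_support_iff.1 hm, norm_zero]

theorem nr3_nonneg (p : MvPolynomial (Fin 3) ℂ) : 0 ≤ nr3 p :=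
  Finset.sum_nonneg fun _ _ => norm_nonneg _

theorem nr3_zero : nr3 (0 : MvPolynomial (Fin 3) ℂ) = 0 := by simp [nr3]

theorem nr3_add (p q : MvPolynomial (Fin 3) ℂ) : nr3 (p + q) ≤ nr3 p + nr3 q := by
  classical
  rw [nr3_of_sub (p := p + q) (S := p.support ∪ q.support) support_add,
    nr3_of_sub (p := p) (S := p.support ∪ q.support) Finset.subset_union_left,
    nr3_of_sub (p := q) (S := p.support ∪ q.support) Finset.subset_union_right,
    ← Finset.sum_add_distrib]
  refine Finset.sum_le_sum fun m _ => ?_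
  rw [coeff_add]
  exact norm_add_le _ _

theorem nr3_neg (p : MvPolynomial (Fin 3) ℂ) : nr3 (-p) = nr3 p := by
  rw [nr3_of_sub (p := -p) (S := p.support) (by rw [support_neg])]
  unfold nr3
  refine Finset.sum_congr rfl fun m _ => ?_
  rw [coeff_neg, norm_neg]

theorem nr3_sub (p q : MvPolynomial (Fin 3) ℂ) : nr3 (p - q) ≤ nr3 p + nr3 q := by
  rw [sub_eq_add_neg]
  have := nr3_add p (-q)
  rwa [nr3_neg] at this

theorem nr3_sum {ι : Type} (S : Finset ι) (f : ι → MvPolynomial (Fin 3) ℂ) :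
    nr3 (∑ i ∈ S, f i) ≤ ∑ i ∈ S, nr3 (f i) := by
  classical
  induction S using Finset.induction_on with
  | empty => simp [nr3_zero]
  | insert a S ha ih =>
    rw [Finset.sum_insert ha, Finset.sum_insert ha]
    exact (nr3_add _ _).trans (by linarith)

theorem nr3_monomial (m : Fin 3 →₀ ℕ) (c : ℂ) : nr3 (monomial m c) = ‖c‖ := by
  classical
  rw [nr3_of_sub (p := monomial m c) (S := {m}) support_monomial_subset, Finset.sum_singleton,
    coeff_monomial, if_pos rfl]

theorem nr3_mul (p q : MvPolynomial (Fin 3) ℂ) : nr3 (p * q) ≤ nr3 p * nr3 q := by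
  have h : p * q = ∑ m ∈ p.support, ∑ k ∈ q.support,
      monomial (m + k) (coeff m p * coeff k q) := by
    conv_lhs => rw [p.as_sum, q.as_sum, Finset.sum_mul_sum]
    simp only [monomial_mul]
  rw [h]
  refine (nr3_sum _ _).trans ?_
  unfold nr3 at *
  rw [Finset.sum_mul]
  refine Finset.sum_le_sum fun m _ => ?_
  rw [Finset.mul_sum]
  refine (nr3_sum q.support fun k => monomial (m + k) (coeff m p * coeff k q)).trans ?_
  refine Finset.sum_le_sum fun k _ => ?_
  rw [nr3_monomial, norm_mul]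

theorem nr3_C_mul (c : ℂ) (p : MvPolynomial (Fin 3) ℂ) : nr3 (C c * p) ≤ ‖c‖ * nr3 p := by
  have h := nr3_mul (C c) p
  rwa [show nr3 (C c) = ‖c‖ from nr3_monomial 0 c] at h

theorem nr3_mul_X (p : MvPolynomial (Fin 3) ℂ) (i : Fin 3) : nr3 (p * X i) ≤ nr3 p := by
  have h := nr3_mul p (X i)
  rwa [show nr3 (X i) = ‖(1 : ℂ)‖ from nr3_monomial (Finsupp.single i 1) 1, norm_one, mul_one] at h

/-- quotient by a variable -/
noncomputable def dq (j : Fin 3) : MvPolynomial (Fin 3) ℂ →ₗ[ℂ] MvPolynomial (Fin 3) ℂ where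
  toFun p := p.divMonomial (Finsupp.single j 1)
  map_add' p q := add_divMonomial p q _
  map_smul' c p := by
    ext m
    simp only [coeff_divMonomial, coeff_smul, RingHom.id_apply]

theorem coeff_dq (j : Fin 3) (p : MvPolynomial (Fin 3) ℂ) (m : Fin 3 →₀ ℕ) :
    coeff m (dq j p) = coeff (Finsupp.single j 1 + m) p := coeff_divMonomial _ _ _

/-- multiplication by a variable -/
noncomputable def mx (j : Fin 3) : MvPolynomial (Fin 3) ℂ →ₗ[ℂ] MvPolynomial (Fin 3) ℂ :=
  LinearMap.mulLeft ℂ (X j)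

/-- the monomials not divisible by `x_j` -/
noncomputable def rs (j : Fin 3) : MvPolynomial (Fin 3) ℂ →ₗ[ℂ] MvPolynomial (Fin 3) ℂ :=
  LinearMap.id - (mx j).comp (dq j)

theorem single_add_sub {m : Fin 3 →₀ ℕ} {i : Fin 3} (h : m i ≠ 0) :
    Finsupp.single i 1 + (m - Finsupp.single i 1) = m := by
  ext j
  simp only [Finsupp.add_apply, Finsupp.tsub_apply]
  by_cases hj : i = j
  · subst hj
    rw [Finsupp.single_eq_same]
    omega
  · rw [Finsupp.single_eq_of_ne' hj]
    omega

theorem coeff_rs (j : Fin 3) (p : MvPolynomial (Fin 3) ℂ) (m : Fin 3 →₀ ℕ) :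
    coeff m (rs j p) = if m j = 0 then coeff m p else 0 := by
  show coeff m (p - X j * dq j p) = _
  rw [coeff_sub, coeff_X_mul']
  by_cases h : m j = 0
  · rw [if_pos h, if_neg (by rw [Finsupp.mem_support_iff]; exact fun h' => h' h), sub_zero]
  · rw [if_neg h, if_pos (by rw [Finsupp.mem_support_iff]; exact h), coeff_dq, single_add_sub h,
      sub_self]

/-- the three quotients -/
noncomputable def U : Fin 3 → MvPolynomial (Fin 3) ℂ →ₗ[ℂ] MvPolynomial (Fin 3) ℂ :=
  ![dq 0, (dq 1).comp (rs 0), (dq 2).comp ((rs 1).comp (rs 0))]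

/-- the exponents before `j` vanish -/
def Cd (j : Fin 3) (m : Fin 3 →₀ ℕ) : Prop := ∀ i, i < j → m i = 0

open Classical in
theorem coeff_U (j : Fin 3) (p : MvPolynomial (Fin 3) ℂ) (m : Fin 3 →₀ ℕ) :
    coeff m (U j p) = if Cd j m then coeff (Finsupp.single j 1 + m) p else 0 := by
  fin_cases j
  · show coeff m (dq 0 p) = _
    rw [coeff_dq, if_pos]
    · rfl
    · intro i hi
      exact absurd hi (by simp)
  · show coeff m (dq 1 (rs 0 p)) = _
    rw [coeff_dq, coeff_rs]
    by_cases h : m 0 = 0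
    · rw [if_pos (by simp [h]), if_pos]
      · rfl
      · intro i hi
        fin_cases i
        · exact h
        · exact absurd hi (by simp)
        · exact absurd hi (by simp)
    · rw [if_neg (by simp [h]), if_neg]
      intro h'
      exact h (h' 0 (by simp))
  · show coeff m (dq 2 (rs 1 (rs 0 p))) = _
    rw [coeff_dq, coeff_rs, coeff_rs]
    by_cases h : m 1 = 0
    · by_cases h0 : m 0 = 0
      · rw [if_pos (by simp [h]), if_pos (by simp [h0]), if_pos]
        · rfl
        · intro i hi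
          fin_cases i
          · exact h0
          · exact h
          · exact absurd hi (by simp)
      · rw [if_pos (by simp [h]), if_neg (by simp [h0]), if_neg]
        intro h'
        exact h0 (h' 0 (by simp))
    · rw [if_neg (by simp [h]), if_neg]
      intro h'
      exact h (h' 1 (by simp))

theorem coeff_U_of_ne {j : Fin 3} {p : MvPolynomial (Fin 3) ℂ} {m : Fin 3 →₀ ℕ}
    (h : coeff m (U j p) ≠ 0) : Cd j m ∧ coeff m (U j p) = coeff (Finsupp.single j 1 + m) p := by
  classical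
  rw [coeff_U] at h ⊢
  by_cases hc : Cd j m
  · exact ⟨hc, if_pos hc⟩
  · rw [if_neg hc] at h
    exact absurd rfl h

theorem hom_U {p : MvPolynomial (Fin 3) ℂ} {k : ℕ} (hp : p.IsHomogeneous (k + 1)) (j : Fin 3) :
    (U j p).IsHomogeneous k := by
  intro m hm
  obtain ⟨-, h2⟩ := coeff_U_of_ne hm
  rw [h2] at hm
  have h3 := hp hm
  rw [map_add, Finsupp.weight_apply, Finsupp.sum_single_index (by simp)] at h3
  simp only [Pi.one_apply, smul_eq_mul, mul_one] at h3
  omega

theorem split_eq {p : MvPolynomial (Fin 3) ℂ} {k : ℕ} (hp : p.IsHomogeneous (k + 1)) :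
    X 0 * U 0 p + X 1 * U 1 p + X 2 * U 2 p = p := by
  have e0 : X 0 * U 0 p = p - rs 0 p := by
    show X 0 * dq 0 p = p - (p - X 0 * dq 0 p)
    ring
  have e1 : X 1 * U 1 p = rs 0 p - rs 1 (rs 0 p) := by
    show X 1 * dq 1 (rs 0 p) = rs 0 p - (rs 0 p - X 1 * dq 1 (rs 0 p))
    ring
  have e2 : X 2 * U 2 p = rs 1 (rs 0 p) - rs 2 (rs 1 (rs 0 p)) := by
    show X 2 * dq 2 (rs 1 (rs 0 p)) =
      rs 1 (rs 0 p) - (rs 1 (rs 0 p) - X 2 * dq 2 (rs 1 (rs 0 p)))
    ring
  have e3 : rs 2 (rs 1 (rs 0 p)) = 0 := by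
    ext m
    rw [coeff_rs, coeff_rs, coeff_rs, coeff_zero]
    split_ifs with h2 h1 h0
    · by_contra hne
      have h3 := hp hne
      rw [Finsupp.weight_apply, Finsupp.sum_fintype _ _ (by simp)] at h3
      simp [Fin.sum_univ_three, h0, h1, h2] at h3
    · rfl
    · rfl
    · rfl
  rw [e0, e1, e2, e3]
  ring

theorem nr3_split (p : MvPolynomial (Fin 3) ℂ) : ∑ j, nr3 (U j p) ≤ nr3 p := by
  classical
  have h1 : ∀ j, nr3 (U j p) =
      ∑ m ∈ (U j p).support.image (fun m => Finsupp.single j 1 + m), ‖coeff m p‖ := by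
    intro j
    rw [Finset.sum_image (fun a _ b _ h => add_left_cancel h)]
    unfold nr3
    exact Finset.sum_congr rfl fun m hm => by rw [(coeff_U_of_ne (mem_support_iff.1 hm)).2]
  have key : ∀ j k : Fin 3, j < k →
      Disjoint ((U j p).support.image (fun m => Finsupp.single j 1 + m))
        ((U k p).support.image (fun m => Finsupp.single k 1 + m)) := by
    intro j k hjk
    rw [Finset.disjoint_left]
    intro m hm hm'
    obtain ⟨a, -, rfl⟩ := Finset.mem_image.1 hm
    obtain ⟨b, hb, hb'⟩ := Finset.mem_image.1 hm'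
    have h3 := congrArg (fun f => f j) hb'
    have h4 := (coeff_U_of_ne (mem_support_iff.1 hb)).1 j hjk
    simp only [Finsupp.add_apply, Finsupp.single_eq_same, h4,
      Finsupp.single_eq_of_ne (show j ≠ k from hjk.ne)] at h3
    omega
  have hd : ((Finset.univ : Finset (Fin 3)) : Set (Fin 3)).PairwiseDisjoint
      (fun j => (U j p).support.image (fun m => Finsupp.single j 1 + m)) := by
    intro j _ k _ hne
    rcases lt_or_gt_of_ne hne with h | h
    · exact key j k h
    · exact (key k j h).symm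
  rw [Finset.sum_congr rfl fun j _ => h1 j, ← Finset.sum_biUnion hd]
  unfold nr3
  refine Finset.sum_le_sum_of_subset_of_nonneg ?_ fun _ _ _ => norm_nonneg _
  intro m hm
  obtain ⟨j, -, hj⟩ := Finset.mem_biUnion.1 hm
  obtain ⟨a, ha, rfl⟩ := Finset.mem_image.1 hj
  rw [mem_support_iff, ← (coeff_U_of_ne (mem_support_iff.1 ha)).2]
  exact mem_support_iff.1 ha

theorem br_tE {k : ℕ} {D : VF 3} (hD : HomT k D) (j i : Fin 3) :
    br (tE j) D i = D j * X i + X j * D i - (k : MvPolynomial (Fin 3) ℂ) * (X j * D i) := by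
  have h := (hD i).sum_X_mul_pderiv
  rw [nsmul_eq_mul] at h
  have h1 : br (tE j) D i = ∑ l, (pderiv l (X j * X i : MvPolynomial (Fin 3) ℂ) * D l -
      pderiv l (D i) * (X j * X l)) := rfl
  rw [h1, Finset.sum_sub_distrib]
  have h2 : ∑ l, pderiv l (D i) * (X j * X l) = X j * ((k : MvPolynomial (Fin 3) ℂ) * D i) := by
    rw [← h, Finset.mul_sum]
    refine Finset.sum_congr rfl fun l _ => ?_
    ring
  have h3 : ∑ l, pderiv l (X j * X i : MvPolynomial (Fin 3) ℂ) * D l = D j * X i + X j * D i := by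
    simp only [Derivation.leibniz, pderiv_X, smul_eq_mul, add_mul, Finset.sum_add_distrib]
    have a1 : ∑ l, X j * (Pi.single l (1 : MvPolynomial (Fin 3) ℂ) : Fin 3 → _) i * D l = X j * D i := by
      rw [Finset.sum_eq_single i]
      · rw [Pi.single_eq_same, mul_one]
      · intro l _ hl
        rw [Pi.single_eq_of_ne hl.symm, mul_zero, zero_mul]
      · intro h
        exact absurd (Finset.mem_univ i) h
    have a2 : ∑ l, X i * (Pi.single l (1 : MvPolynomial (Fin 3) ℂ) : Fin 3 → _) j * D l = X i * D j := by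
      rw [Finset.sum_eq_single j]
      · rw [Pi.single_eq_same, mul_one]
      · intro l _ hl
        rw [Pi.single_eq_of_ne hl.symm, mul_zero, zero_mul]
      · intro h
        exact absurd (Finset.mem_univ j) h
    rw [a1, a2]
    ring
  rw [h2, h3]
  ring

/-- the common factor -/
noncomputable def qq (b : ℂ) (w : VF 3) : MvPolynomial (Fin 3) ℂ :=
  C b * (U 0 (w 0) + U 1 (w 1) + U 2 (w 2))

theorem qq_smul (b r : ℂ) (w : VF 3) : qq b (r • w) = r • qq b w := by
  unfold qq
  rw [Pi.smul_apply, Pi.smul_apply, Pi.smul_apply, map_smul, map_smul, map_smul, ← smul_add,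
    ← smul_add, mul_smul_comm]

/-- the components of the inverse -/
noncomputable def Bm (b c : ℂ) (j : Fin 3) : VF 3 →ₗ[ℂ] VF 3 where
  toFun w := fun i => -(C b * U j (w i)) - C c * (U j (qq b w) * X i)
  map_add' w w' := by
    funext i
    simp only [Pi.add_apply, map_add, qq, mul_add]
    ring
  map_smul' r w := by
    funext i
    show -(C b * U j ((r • w) i)) - C c * (U j (qq b (r • w)) * X i) =
      r • (-(C b * U j (w i)) - C c * (U j (qq b w) * X i))
    rw [Pi.smul_apply, qq_smul, map_smul, map_smul]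
    simp only [smul_eq_C_mul]
    ring

theorem s_DV3 : S_DV3 := by
  intro d hd
  obtain ⟨e, rfl⟩ : ∃ e, d = e + 4 := ⟨d - 4, by omega⟩
  have hb0 : ((e : ℂ) + 2) ≠ 0 := by
    have : ((e + 2 : ℕ) : ℂ) ≠ 0 := Nat.cast_ne_zero.2 (by omega)
    push_cast at this
    exact this
  have hc0 : ((e : ℂ) + 1) ≠ 0 := by
    have : ((e + 1 : ℕ) : ℂ) ≠ 0 := Nat.cast_ne_zero.2 (by omega)
    push_cast at this
    exact this
  set b : ℂ := 1 / ((e : ℂ) + 2) with hb
  set c : ℂ := 1 / ((e : ℂ) + 1) with hc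
  have hbn : ‖b‖ = 1 / ((e : ℝ) + 2) := by
    rw [hb, norm_div, norm_one]
    congr 1
    have : ((e : ℂ) + 2) = ((e + 2 : ℕ) : ℂ) := by push_cast; rfl
    rw [this, Complex.norm_natCast]
    push_cast
    rfl
  have hcn : ‖c‖ ≤ 1 := by
    rw [hc, norm_div, norm_one]
    have : ((e : ℂ) + 1) = ((e + 1 : ℕ) : ℂ) := by push_cast; rfl
    rw [this, Complex.norm_natCast, div_le_one (by positivity)]
    push_cast
    linarith [Nat.cast_nonneg (α := ℝ) e]
  have hb1 : C b * ((e : MvPolynomial (Fin 3) ℂ) + 2) = 1 := by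
    have : ((e : MvPolynomial (Fin 3) ℂ) + 2) = C ((e : ℂ) + 2) := by
      rw [map_add, map_natCast, map_ofNat]
    rw [this, ← C_mul, hb, one_div, inv_mul_cancel₀ hb0, C_1]
  have hc1 : C c * ((e : MvPolynomial (Fin 3) ℂ) + 1) = 1 := by
    have : ((e : MvPolynomial (Fin 3) ℂ) + 1) = C ((e : ℂ) + 1) := by
      rw [map_add, map_natCast, map_one]
    rw [this, ← C_mul, hc, one_div, inv_mul_cancel₀ hc0, C_1]
  refine ⟨Bm b c, fun w hw => ?_⟩
  have hw' : ∀ i, (w i).IsHomogeneous (e + 3 + 1) := hw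
  have hq : (qq b w).IsHomogeneous (e + 2 + 1) :=
    IsHomogeneous.C_mul (((hom_U (hw' 0) 0).add (hom_U (hw' 1) 1)).add (hom_U (hw' 2) 2)) b
  have hB : ∀ j, HomT (e + 3) (Bm b c j w) := by
    intro j i
    show (-(C b * U j (w i)) - C c * (U j (qq b w) * X i)).IsHomogeneous (e + 3)
    have h1 : (C b * U j (w i)).IsHomogeneous (e + 3) := (hom_U (hw' i) j).C_mul b
    have h2 : (C c * (U j (qq b w) * X i)).IsHomogeneous (e + 3) :=
      ((hom_U hq j).mul (isHomogeneous_X ℂ i)).C_mul c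
    exact h1.neg.sub h2
  refine ⟨hB, ?_, ?_⟩
  · funext i
    rw [Fin.sum_univ_three, Pi.add_apply, Pi.add_apply, br_tE (hB 0), br_tE (hB 1), br_tE (hB 2)]
    have s1 := split_eq (hw' i)
    have s2 := split_eq hq
    have e1 : ∀ j l, Bm b c j w l = -(C b * U j (w l)) - C c * (U j (qq b w) * X l) :=
      fun _ _ => rfl
    have e5 : qq b w = C b * (U 0 (w 0) + U 1 (w 1) + U 2 (w 2)) := rfl
    simp only [e1]
    push_cast
    linear_combination (C c * X i * ((e : MvPolynomial (Fin 3) ℂ) + 2) - C c * X i) * s2 +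
      (((e : MvPolynomial (Fin 3) ℂ) + 2) * C b) * s1 + w i * hb1 + X i * qq b w * hc1 + X i * e5
  · have hbb : 0 ≤ ‖b‖ := norm_nonneg _
    have hq1 : nr3 (qq b w) ≤ ‖b‖ * (nr3 (U 0 (w 0)) + nr3 (U 1 (w 1)) + nr3 (U 2 (w 2))) :=
      (nr3_C_mul _ _).trans (mul_le_mul_of_nonneg_left
        ((nr3_add _ _).trans (by linarith [nr3_add (U 0 (w 0)) (U 1 (w 1))])) hbb)
    have hU : ∀ j i, nr3 (Bm b c j w i) ≤ ‖b‖ * nr3 (U j (w i)) + nr3 (U j (qq b w)) := by
      intro j i
      have e1 : Bm b c j w i = -(C b * U j (w i)) - C c * (U j (qq b w) * X i) := rfl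
      rw [e1]
      refine (nr3_sub _ _).trans (add_le_add ?_ ?_)
      · rw [nr3_neg]
        exact nr3_C_mul _ _
      · refine (nr3_C_mul _ _).trans ?_
        calc ‖c‖ * nr3 (U j (qq b w) * X i) ≤ 1 * nr3 (U j (qq b w) * X i) :=
              mul_le_mul_of_nonneg_right hcn (nr3_nonneg _)
          _ ≤ nr3 (U j (qq b w)) := by rw [one_mul]; exact nr3_mul_X _ _
    have e1 : (4 : ℝ) / (((e + 4 : ℕ) : ℝ) - 2) = 4 * ‖b‖ := by
      rw [hbn]
      push_cast
      have : (e : ℝ) + 4 - 2 = (e : ℝ) + 2 := by ring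
      rw [this]
      ring
    rw [e1]
    have hsum : ∀ i, ∑ j, nr3 (Bm b c j w i) ≤ ‖b‖ * nr3 (w i) + nr3 (qq b w) := by
      intro i
      calc ∑ j, nr3 (Bm b c j w i)
          ≤ ∑ j, (‖b‖ * nr3 (U j (w i)) + nr3 (U j (qq b w))) :=
            Finset.sum_le_sum fun j _ => hU j i
        _ = ‖b‖ * ∑ j, nr3 (U j (w i)) + ∑ j, nr3 (U j (qq b w)) := by
            rw [Finset.sum_add_distrib, Finset.mul_sum]
        _ ≤ ‖b‖ * nr3 (w i) + nr3 (qq b w) :=
            add_le_add (mul_le_mul_of_nonneg_left (nr3_split _) hbb) (nr3_split _)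
    have hUw : ∀ j i, nr3 (U j (w i)) ≤ nr3 (w i) := fun j i =>
      (Finset.single_le_sum (f := fun j => nr3 (U j (w i))) (fun _ _ => nr3_nonneg _)
        (Finset.mem_univ j)).trans (nr3_split _)
    have hq2 : nr3 (qq b w) ≤ ‖b‖ * (nr3 (w 0) + nr3 (w 1) + nr3 (w 2)) :=
      hq1.trans (mul_le_mul_of_nonneg_left
        (by linarith [hUw 0 0, hUw 1 1, hUw 2 2]) hbb)
    unfold nrm3
    rw [Finset.sum_comm]
    simp only [Fin.sum_univ_three (fun i => ∑ j, nr3 (Bm b c j w i)),
      Fin.sum_univ_three (fun i => nr3 (w i))]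
    have t0 := hsum 0
    have t1 := hsum 1
    have t2 := hsum 2
    linarith
end Pool.Agent.L7h89.RV
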