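import Pool.Agent.L7h89.RV.Dv3

/-! [SUR3] of project RV (helper57); after helper6's file Sur.lean. -/

set_option autoImplicit false

namespace Pool.Agent.L7h89.RV

open MvPolynomial Pool.Helper89.Rev Pool.Agent.L7h57.RV

theorem br_apply (C D : VF 3) (i : Fin 3) :
    br C D i = ∑ j, (pderiv j (C i) * D j - pderiv j (D i) * C j) := rfl

/-- the bracket as a linear map -/
noncomputable def brL (A : VF 3) : VF 3 →ₗ[ℂ] VF 3 where
  toFun := br A
  map_add' D D' := by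
    funext i
    rw [Pi.add_apply, br_apply, br_apply, br_apply, ← Finset.sum_add_distrib]
    refine Finset.sum_congr rfl fun j _ => ?_
    simp only [Pi.add_apply, map_add]
    ring
  map_smul' r D := by
    funext i
    rw [Pi.smul_apply, br_apply, br_apply, Finset.smul_sum]
    refine Finset.sum_congr rfl fun j _ => ?_
    have h : pderiv j ((r • D) i) = C r * pderiv j (D i) := by
      rw [Pi.smul_apply, (pderiv j).map_smul, smul_eq_C_mul]
    rw [h]
    simp only [Pi.smul_apply, smul_eq_C_mul, RingHom.id_apply]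
    ring

theorem br_add (C C' D : VF 3) : br (C + C') D = br C D + br C' D := by
  funext i
  rw [Pi.add_apply, br_apply, br_apply, br_apply, ← Finset.sum_add_distrib]
  refine Finset.sum_congr rfl fun j _ => ?_
  simp only [Pi.add_apply, map_add]
  ring

theorem br_neg (C D : VF 3) : br (-C) D = -br C D := by
  funext i
  rw [Pi.neg_apply, br_apply, br_apply, ← Finset.sum_neg_distrib]
  refine Finset.sum_congr rfl fun j _ => ?_
  simp only [Pi.neg_apply, map_neg]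
  ring

theorem br_hom {d : ℕ} {A D : VF 3} (hA : HomT 2 A) (hD : HomT (d + 1) D) :
    HomT (d + 2) (br A D) := by
  intro i
  unfold br
  refine IsHomogeneous.sum _ _ _ fun j _ => ?_
  have h1 : (pderiv j (A i) * D j).IsHomogeneous (d + 2) := by
    have := ((hA i).pderiv (i := j)).mul (hD j)
    rwa [show 2 - 1 + (d + 1) = d + 2 by omega] at this
  have h2 : (pderiv j (D i) * A j).IsHomogeneous (d + 2) := by
    have := ((hD i).pderiv (i := j)).mul (hA j)
    rwa [show d + 1 - 1 + 2 = d + 2 by omega] at this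
  exact h1.sub h2

theorem nrm3_nonneg (P : VF 3) : 0 ≤ nrm3 P := Finset.sum_nonneg fun _ _ => nr3_nonneg _

theorem nrm3_add (P Q : VF 3) : nrm3 (P + Q) ≤ nrm3 P + nrm3 Q := by
  unfold nrm3
  rw [← Finset.sum_add_distrib]
  exact Finset.sum_le_sum fun i _ => nr3_add _ _

theorem nrm3_neg (P : VF 3) : nrm3 (-P) = nrm3 P := by
  unfold nrm3
  exact Finset.sum_congr rfl fun i _ => nr3_neg _

theorem nrm3_smul (c : ℂ) (P : VF 3) : nrm3 (c • P) ≤ ‖c‖ * nrm3 P := by
  unfold nrm3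
  rw [Finset.mul_sum]
  refine Finset.sum_le_sum fun i _ => ?_
  rw [Pi.smul_apply, smul_eq_C_mul]
  exact nr3_C_mul c (P i)

theorem eq_zero_of_nrm3 {P : VF 3} (h : nrm3 P ≤ 0) : P = 0 := by
  have h1 : nrm3 P = 0 := le_antisymm h (nrm3_nonneg P)
  unfold nrm3 at h1
  rw [Finset.sum_eq_zero_iff_of_nonneg fun _ _ => nr3_nonneg _] at h1
  funext i
  have h2 := h1 i (Finset.mem_univ i)
  unfold nr3 at h2
  rw [Finset.sum_eq_zero_iff_of_nonneg fun _ _ => norm_nonneg _] at h2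
  ext m
  by_contra hne
  exact hne (norm_eq_zero.1 (h2 m (mem_support_iff.2 (by simpa using hne))))

theorem fin_HomV (d : ℕ) : FiniteDimensional ℂ (HomV 3 d) := by
  have h : (HomV 3 d).FG := Submodule.fg_pi fun _ => homogeneousSubmodule_fg (Fin 3) ℂ d
  exact Module.Finite.iff_fg.2 h

theorem lin_sg (k : Fin 3) : lin sg k = C (![1, 1, -1] k : ℂ) * X k := by
  unfold lin sg
  rw [Finset.sum_eq_single k]
  · rw [Matrix.diagonal_apply_eq]
  · intro l _ hl
    rw [Matrix.diagonal_apply_ne _ hl.symm, C_0, zero_mul]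
  · intro h
    exact absurd (Finset.mem_univ k) h

theorem act_sg (P : VF 3) (i : Fin 3) :
    act sg sg P i = C (![1, 1, -1] i : ℂ) * aeval (lin sg) (P i) := by
  unfold act
  rw [Finset.sum_eq_single i]
  · unfold sg
    rw [Matrix.diagonal_apply_eq]
  · intro l _ hl
    unfold sg
    rw [Matrix.diagonal_apply_ne _ hl.symm, C_0, zero_mul]
  · intro h
    exact absurd (Finset.mem_univ i) h

theorem act_tE0 : act sg sg (tE 0) = tE 0 := by
  funext i
  rw [act_sg]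
  unfold tE
  rw [map_mul, aeval_X, aeval_X, lin_sg, lin_sg]
  fin_cases i
  · simp
  · simp
  · simp

theorem act_tE2 : act sg sg (tE 2) = -tE 2 := by
  funext i
  rw [act_sg, Pi.neg_apply]
  unfold tE
  rw [map_mul, aeval_X, aeval_X, lin_sg, lin_sg]
  fin_cases i
  · simp
  · simp
  · simp

theorem act_P0A (A : VF 3) : act sg sg (P0 + A) = tE 0 + -tE 2 + act sg sg A := by
  have h := (actL sg sg).map_add (P0) A
  simp only [actL_apply] at h
  have h2 := (actL sg sg).map_add (tE 0) (tE 2)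
  simp only [actL_apply] at h2
  rw [h]
  unfold P0
  rw [h2, act_tE0, act_tE2]

theorem s_SUR3 (hNB : S_NB3) (hDV : S_DV3) : S_SUR3 := by
  refine ⟨1 / 20, by norm_num, ?_⟩
  intro A A' hA hA' hAn hAn' d hd w hw
  obtain ⟨B, hB⟩ := hDV d hd
  obtain ⟨hNB1, hNB2⟩ := hNB
  obtain ⟨e, rfl⟩ : ∃ e, d = e + 4 := ⟨d - 4, by omega⟩
  set D1 : VF 3 →ₗ[ℂ] VF 3 := (1 / 2 : ℂ) • (B 0 + B 2) with hD1
  set D3 : VF 3 →ₗ[ℂ] VF 3 := (1 / 2 : ℂ) • (B 0 - B 2) with hD3
  have hD1a : ∀ x, D1 x = (1 / 2 : ℂ) • (B 0 x + B 2 x) := fun x => rfl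
  have hD3a : ∀ x, D3 x = (1 / 2 : ℂ) • (B 0 x - B 2 x) := fun x => rfl
  set A'' : VF 3 := act sg sg A with hA''
  have hA''h : HomT 2 A'' := act_hom hA
  have hA''n : nrm3 A'' < 1 / 20 := by rw [hA'', hNB2]; exact hAn
  have homD : ∀ x, HomT (e + 4) x → HomT (e + 3) (D1 x) ∧ HomT (e + 3) (B 1 x) ∧
      HomT (e + 3) (D3 x) := by
    intro x hx
    obtain ⟨h1, -, -⟩ := hB x hx
    have h0 : HomT (e + 3) (B 0 x) := h1 0
    have h2 : HomT (e + 3) (B 2 x) := h1 2
    refine ⟨fun i => ?_, h1 1, fun i => ?_⟩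
    · rw [hD1a, Pi.smul_apply, smul_eq_C_mul, Pi.add_apply]
      exact ((h0 i).add (h2 i)).C_mul _
    · rw [hD3a, Pi.smul_apply, smul_eq_C_mul, Pi.sub_apply]
      exact ((h0 i).sub (h2 i)).C_mul _
  set T : VF 3 →ₗ[ℂ] VF 3 :=
    LinearMap.id + (brL A).comp D1 + (brL A').comp (B 1) + (brL A'').comp D3 with hT
  have hTa : ∀ x, T x = x + br A (D1 x) + br A' (B 1 x) + br A'' (D3 x) := fun x => rfl
  have hmap : ∀ x ∈ HomV 3 (e + 4), T x ∈ HomV 3 (e + 4) := by
    intro x hx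
    have hx' := mem_HomV.1 hx
    obtain ⟨h1, h2, h3⟩ := homD x hx'
    have h4 : HomT (e + 4) (br A (D1 x)) := br_hom (d := e + 2) hA h1
    have h5 : HomT (e + 4) (br A' (B 1 x)) := br_hom (d := e + 2) hA' h2
    have h6 : HomT (e + 4) (br A'' (D3 x)) := br_hom (d := e + 2) hA''h h3
    rw [hTa]
    exact (HomV 3 (e + 4)).add_mem ((HomV 3 (e + 4)).add_mem ((HomV 3 (e + 4)).add_mem hx
      (mem_HomV.2 h4)) (mem_HomV.2 h5)) (mem_HomV.2 h6)
  have := fin_HomV (e + 4)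
  have hinj : Function.Injective (T.restrict hmap) := by
    rw [injective_iff_map_eq_zero]
    rintro ⟨x, hx⟩ h0
    have h0' : T x = 0 := congrArg Subtype.val h0
    have hx' := mem_HomV.1 hx
    obtain ⟨-, -, h3⟩ := hB x hx'
    obtain ⟨k1, k2, k3⟩ := homD x hx'
    have h4 := hNB1 (e + 3) A (D1 x) hA k1
    have h5 := hNB1 (e + 3) A' (B 1 x) hA' k2
    have h5' := hNB1 (e + 3) A'' (D3 x) hA''h k3
    have h6 : x = -(br A (D1 x) + br A' (B 1 x) + br A'' (D3 x)) := by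
      rw [hTa] at h0'
      rw [eq_neg_iff_add_eq_zero, ← add_assoc, ← add_assoc]
      exact h0'
    have h7 : nrm3 x ≤ nrm3 (br A (D1 x)) + nrm3 (br A' (B 1 x)) + nrm3 (br A'' (D3 x)) := by
      calc nrm3 x = nrm3 (-(br A (D1 x) + br A' (B 1 x) + br A'' (D3 x))) := congrArg nrm3 h6
        _ = nrm3 (br A (D1 x) + br A' (B 1 x) + br A'' (D3 x)) := nrm3_neg _
        _ ≤ nrm3 (br A (D1 x) + br A' (B 1 x)) + nrm3 (br A'' (D3 x)) := nrm3_add _ _
        _ ≤ _ := add_le_add (nrm3_add _ _) le_rfl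
    have h8 : (((e + 3 : ℕ) : ℝ) + 2) = (e : ℝ) + 5 := by
      push_cast
      ring
    have h9 : (((e + 4 : ℕ) : ℝ) - 2) = (e : ℝ) + 2 := by
      push_cast
      ring
    rw [h8] at h4 h5 h5'
    rw [h9, Fin.sum_univ_three] at h3
    have e0 : (0 : ℝ) ≤ e := Nat.cast_nonneg e
    have n0 := nrm3_nonneg (D1 x)
    have n1 := nrm3_nonneg (B 1 x)
    have n2 := nrm3_nonneg (D3 x)
    have n3 := nrm3_nonneg x
    have hhalf : ‖(1 / 2 : ℂ)‖ = 1 / 2 := by norm_num
    have m1 : nrm3 (D1 x) ≤ 1 / 2 * (nrm3 (B 0 x) + nrm3 (B 2 x)) := by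
      rw [hD1a]
      refine (nrm3_smul _ _).trans ?_
      rw [hhalf]
      exact mul_le_mul_of_nonneg_left (nrm3_add _ _) (by norm_num)
    have m3 : nrm3 (D3 x) ≤ 1 / 2 * (nrm3 (B 0 x) + nrm3 (B 2 x)) := by
      rw [hD3a]
      refine (nrm3_smul _ _).trans ?_
      rw [hhalf]
      refine mul_le_mul_of_nonneg_left ?_ (by norm_num)
      rw [sub_eq_add_neg]
      refine (nrm3_add _ _).trans ?_
      rw [nrm3_neg]
    have h10 : ((e : ℝ) + 5) * nrm3 A * nrm3 (D1 x) ≤ ((e : ℝ) + 5) * (1 / 20) * nrm3 (D1 x) := by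
      gcongr
    have h11 : ((e : ℝ) + 5) * nrm3 A' * nrm3 (B 1 x) ≤
        ((e : ℝ) + 5) * (1 / 20) * nrm3 (B 1 x) := by
      gcongr
    have h11' : ((e : ℝ) + 5) * nrm3 A'' * nrm3 (D3 x) ≤
        ((e : ℝ) + 5) * (1 / 20) * nrm3 (D3 x) := by
      gcongr
    have h12 : nrm3 x ≤ ((e : ℝ) + 5) * (1 / 20) * (4 / ((e : ℝ) + 2) * nrm3 x) := by
      calc nrm3 x ≤ ((e : ℝ) + 5) * (1 / 20) *
            (nrm3 (D1 x) + nrm3 (B 1 x) + nrm3 (D3 x)) := by linarith
        _ ≤ ((e : ℝ) + 5) * (1 / 20) * (nrm3 (B 0 x) + nrm3 (B 1 x) + nrm3 (B 2 x)) := by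
            refine mul_le_mul_of_nonneg_left ?_ (by positivity)
            linarith
        _ ≤ _ := by gcongr
    have h13 : ((e : ℝ) + 5) * (1 / 20) * (4 / ((e : ℝ) + 2) * nrm3 x) ≤ 1 / 2 * nrm3 x := by
      rw [← mul_assoc]
      refine mul_le_mul_of_nonneg_right ?_ n3
      rw [mul_div_assoc', div_le_iff₀ (by linarith)]
      linarith
    have h14 : x = 0 := eq_zero_of_nrm3 (by linarith)
    exact Subtype.ext h14
  have hsur := LinearMap.injective_iff_surjective.1 hinj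
  obtain ⟨⟨x, hx⟩, hxw⟩ := hsur ⟨w, mem_HomV.2 hw⟩
  have hxw' : T x = w := congrArg Subtype.val hxw
  obtain ⟨-, h3, -⟩ := hB x (mem_HomV.1 hx)
  obtain ⟨k1, k2, k3⟩ := homD x (mem_HomV.1 hx)
  refine ⟨D1 x, B 1 x, D3 x, k1, k2, k3, ?_⟩
  rw [act_P0A, br_add, br_add, br_add, br_add, br_neg, ← hxw', hTa]
  unfold P0
  rw [br_add]
  rw [Fin.sum_univ_three] at h3
  have a0 : br (tE 0) (D1 x) + br (tE 0) (D3 x) = br (tE 0) (B 0 x) := by
    have h := (brL (tE 0)).map_add (D1 x) (D3 x)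
    have h2 : D1 x + D3 x = B 0 x := by
      rw [hD1a, hD3a, ← smul_add]
      rw [show B 0 x + B 2 x + (B 0 x - B 2 x) = (2 : ℂ) • B 0 x by
        rw [two_smul]; abel]
      rw [smul_smul]
      norm_num
    rw [h2] at h
    exact h.symm
  have a2 : br (tE 2) (D1 x) - br (tE 2) (D3 x) = br (tE 2) (B 2 x) := by
    have h := (brL (tE 2)).map_sub (D1 x) (D3 x)
    have h2 : D1 x - D3 x = B 2 x := by
      rw [hD1a, hD3a, ← smul_sub]
      rw [show B 0 x + B 2 x - (B 0 x - B 2 x) = (2 : ℂ) • B 2 x by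
        rw [two_smul]; abel]
      rw [smul_smul]
      norm_num
    rw [h2] at h
    exact h.symm
  linear_combination -h3 - a0 - a2

end Pool.Agent.L7h89.RV
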